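import Pool.Agent.Q255.Median

/-!
# A triametral triple of a median graph without peripheral vertices (MP_2f8eff_co)
-/

set_option maxRecDepth 100000

namespace Pool.Agent.Results.MP_2f8eff_co.NoPeripheral

open Pool.Agent.Q255.Median

/-- `G` is a median graph: it is connected and for all `u, v, w` exactly one vertex `x` lies on
shortest paths between `u` and `v`, between `u` and `w`, and between `v` and `w` (membership in the
interval `[u, v]` is expressed by `dist u x + dist x v = dist u v`). -/
def IsMedianGraph {V : Type*} (G : SimpleGraph V) : Prop :=
  G.Connected ∧ ∀ u v w : V, ∃! x : V, (G.dist u x + G.dist x v = G.dist u v ∧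
    G.dist u x + G.dist x w = G.dist u w ∧ G.dist v x + G.dist x w = G.dist v w)

/-- The sum of the three pairwise distances. -/
noncomputable def dist3 {V : Type*} (G : SimpleGraph V) (a b c : V) : ℕ :=
  G.dist a b + G.dist b c + G.dist a c

/-- The triple `a, b, c` is triametral: `dist3` attains its maximum there. -/
def IsTriametral {V : Type*} (G : SimpleGraph V) (a b c : V) : Prop :=
  ∀ a' b' c' : V, dist3 G a' b' c' ≤ dist3 G a b c

/-- The vertex `v` is peripheral: its eccentricity is the diameter, i.e. some vertex `u` is at
maximum distance (over all pairs of vertices) from `v`. -/
def IsPeripheral {V : Type*} (G : SimpleGraph V) (v : V) : Prop :=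
  ∃ u : V, ∀ x y : V, G.dist x y ≤ G.dist v u

/-- The codes of the vertices in the hypercube of dimension 12. -/
def codes : List ℕ := [0, 128, 384, 32, 160, 416, 96, 224, 480, 8, 136, 392, 40, 168, 424, 104, 232, 488, 24, 152, 408, 56, 184, 440, 120, 248, 504, 124, 252, 508, 410, 442, 506, 510, 481, 489, 505, 509, 507, 511, 993, 1434, 2172]

/-- Code of a vertex. -/
def code (u : Fin 43) : ℕ := codes.getD u.val 0

/-- Table of distances, 4 bits for each pair. -/
def T : ℕ := 871167580238565993418347565340824293676846639246599345193563968178563175412850446698266400276377100161135357381418182950392051285860039628310900551132321802531954234165246005059429300345616174123371161621417641040841462368185009088257012278550300618861095680718062274817300164101952833991530266933881007511755696893115608016360429429586825998808189530601978366107805153612955486950715044888033159293292756533672351196989807629868355418040716664572543325229760418166901025415614972829739574520492459063418748144312830492564989078093258320748214402379785594440667397437374917702070313864232546605163243634985447379311645670486728375384965857358786420446491387935520544505621192020856351504432213175475902633152908475730343633248489782842535354538404457990990761931968149851455928922248087780757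73856729890728089804868165069144947847264394153420847690225622660153106784868869181702212986177479928059294929901359544627257487724050248970222255179658452444266834528211800223769817241651250845643123514177098741916966373634338896810968143180413782955704095552943049773862779204796854890027113229783116041993064449860663681575199406125908745184299747439448884199000394218861224809803456137479462732101873584596295061932013403280560578114968267128461369172614226544244889512882720199427904635955166266739154401720302697619360701978495322733634112075098077190190229178010570575275064438145884199125032857988221777258908439002273602029974266145368989815956319640457165617592581810727702217643636968844526070976138846770261404722382808768038188936582601370889603193396107710825926889453741447156896168709978352225763438193921599301067669510478309765551586157683682464148899093920959252374246589956744380651848562790871433313336953258033728367547811745090228704573081839509690343208918150620189281009245534328629746102355890636811190112541656246171836343884105040692951163512354420113275377422641402967667661916154863029046507356405253020008355762210495273055315574682634000023374805652380469341602120928951059812644007029981029823321984341001744764883066480104727100604665245114147665923269988295620911530301521406615983615767015596865056471299676888765643323863826168030516922255392474872604947855573691845090995280788329124666211963408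

/-- Table look-up of the distance. -/
def D (u v : Fin 43) : ℕ := (T >>> (4 * (43 * u.val + v.val))) % 16

/-- The set of codes as a bit set. -/
def S : ℕ := 687306707359003012573764949449050117429376647497140697738049186988999274502545105934798408788344491917057199185479656084105961415339381989005237522223158525534421764832655972290037243621931516686140995018780887878957902728227730127045836138038834804247081989626702116567480362276460426678765034542480855285965165257881459111265821081096794519852118490092069233565526435190711253988673149364069239701571046801214703466230098991031922782511159984985568380530599626487928134835716803285375784679302914413092577004156430016996909871632548911920351247090506685312770249534018084647730366367284684703363440393853796844061548521452859162044678285878246181437697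

/-- The example. -/
def G : SimpleGraph (Fin 43) where
  Adj u v := D u v = 1
  symm := ⟨by decide +kernel⟩
  loopless := ⟨by decide +kernel⟩

theorem D_self : ∀ u, D u u = 0 := by decide +kernel

theorem D_symm : ∀ u v, D u v = D v u := by decide +kernel

theorem D_eq : ∀ u v, D u v = hd 12 (code u) (code v) := by decide +kernel

theorem D_lip : ∀ u w v, G.Adj u w → D u v ≤ D w v + 1 := by
  have : ∀ u w v, D u w = 1 → D u v ≤ D w v + 1 := by decide +kernel
  exact this

theorem D_step : ∀ u v, u ≠ v → ∃ w, G.Adj u w ∧ D w v + 1 = D u v := by
  have : ∀ u v, u ≠ v → ∃ w, D u w = 1 ∧ D w v + 1 = D u v := by decide +kernel
  exact this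

theorem dist_eq (u v : Fin 43) : G.dist u v = D u v :=
  (dist_eq_table D_self D_lip D_step u v).2

theorem connected : G.Connected :=
  ⟨fun u v => (dist_eq_table D_self D_lip D_step u v).1⟩

theorem code_lt : ∀ u, code u < 2 ^ 12 := by decide +kernel

theorem code_inj : Function.Injective code := by
  have : ∀ u v, code u = code v → u = v := by decide +kernel
  exact this

theorem maj_mem : ∀ u v w : Fin 43, S.testBit (maj (code u) (code v) (code w)) = true := by
  decide +kernel

theorem S_spec : ∀ x < 2 ^ 12, S.testBit x = true → ∃ m, code m = x := by
  decide +kernel

theorem maj_lt (a b c k : ℕ) (ha : a < 2 ^ k) (hb : b < 2 ^ k) : maj a b c < 2 ^ k := by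
  unfold maj
  exact Nat.or_lt_two_pow (Nat.and_lt_two_pow _ hb)
    (Nat.or_lt_two_pow (lt_of_le_of_lt Nat.and_le_left ha) (lt_of_le_of_lt Nat.and_le_left hb))

theorem isMedian : IsMedianGraph G :=
  ⟨connected, fun u v w => unique_median code code_lt code_inj
    (fun u v => by rw [dist_eq, D_eq])
    (fun u v w => S_spec _ (maj_lt _ _ _ _ (code_lt u) (code_lt v)) (maj_mem u v w)) u v w⟩

theorem D_sum : ∀ a b c : Fin 43, D a b + D b c + D a c ≤ 24 := by
  decide +kernel

/-- There is a finite median graph with a triametral triple none of whose members is
peripheral. -/
theorem result : ∃ (n : ℕ) (G : SimpleGraph (Fin n)), IsMedianGraph G ∧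
    ∃ a b c : Fin n, IsTriametral G a b c ∧
      ¬ IsPeripheral G a ∧ ¬ IsPeripheral G b ∧ ¬ IsPeripheral G c := by
  have h9 : D 0 39 = 9 := by decide +kernel
  have key : ∀ v : Fin 43, (∀ u, D v u ≤ 8) → ¬ IsPeripheral G v := by
    rintro v hv ⟨u, hu⟩
    have h1 := hu 0 39
    rw [dist_eq, dist_eq, h9] at h1
    have := hv u
    omega
  refine ⟨43, G, isMedian, 40, 41, 42, ?_, key _ (by decide +kernel), key _ (by decide +kernel),
    key _ (by decide +kernel)⟩
  intro a b c
  unfold dist3
  simp only [dist_eq]
  have h3 : D 40 41 + D 41 42 + D 40 42 = 24 := by decide +kernel
  rw [h3]
  exact D_sum a b c

end Pool.Agent.Results.MP_2f8eff_co.NoPeripheral
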